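import Mathlib

namespace Pool.Agent.Results.MP_ee21b2_co.IntRatio

open Finset

theorem round_row {α : Type} [Fintype α] [DecidableEq α] (ρ s : ℕ) (c : α → ℝ)
    (hc : ∀ a, 0 ≤ c a) : ∀ (N : ℕ) (v : α → ℝ),
    (univ.filter (fun a => Int.fract (v a) ≠ 0)).card ≤ N → (∀ a, 0 ≤ v a) → (∀ a, v a ≤ ρ) →
    ∑ a, v a ≤ s → ∃ w : α → ℝ, (∀ a, Int.fract (w a) = 0) ∧ (∀ a, 0 ≤ w a) ∧ (∀ a, w a ≤ ρ) ∧
      ∑ a, w a ≤ s ∧ (∀ a, v a = 0 → w a = 0) ∧ ∑ a, v a * c a ≤ ∑ a, w a * c a := by
  intro N
  induction N with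
  | zero =>
    intro v hN h0 h1 h2
    refine ⟨v, fun a => ?_, h0, h1, h2, fun _ h => h, le_rfl⟩
    by_contra h
    have : a ∈ univ.filter (fun a => Int.fract (v a) ≠ 0) := by simp only [mem_filter]; exact ⟨mem_univ _, h⟩
    have := card_pos.2 ⟨a, this⟩
    omega
  | succ N ih =>
    intro v hN h0 h1 h2
    set F := univ.filter (fun a => Int.fract (v a) ≠ 0) with hF
    by_cases hne : F.Nonempty
    swap
    · refine ih v ?_ h0 h1 h2
      rw [← hF, not_nonempty_iff_eq_empty.1 hne]
      simp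
    obtain ⟨a, haF, hmax⟩ := exists_max_image F c hne
    have ha : Int.fract (v a) ≠ 0 := (mem_filter.1 haF).2
    have hceil : (⌈v a⌉ : ℝ) ≤ ρ := by
      have : ⌈v a⌉ ≤ (ρ : ℤ) := Int.ceil_le.2 (by exact_mod_cast h1 a)
      exact_mod_cast this
    have hva : v a ≠ 0 := by
      intro h
      rw [h] at ha
      simp at ha
    have finish : ∀ v' : α → ℝ, (univ.filter (fun a => Int.fract (v' a) ≠ 0)) ⊂ F →
        (∀ a, 0 ≤ v' a) → (∀ a, v' a ≤ ρ) → ∑ a, v' a ≤ s → (∀ a, v a = 0 → v' a = 0) →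
        ∑ a, v a * c a ≤ ∑ a, v' a * c a →
        ∃ w : α → ℝ, (∀ a, Int.fract (w a) = 0) ∧ (∀ a, 0 ≤ w a) ∧ (∀ a, w a ≤ ρ) ∧
          ∑ a, w a ≤ s ∧ (∀ a, v a = 0 → w a = 0) ∧ ∑ a, v a * c a ≤ ∑ a, w a * c a := by
      intro v' k1 k2 k3 k4 k5 k6
      obtain ⟨w, w1, w2, w3, w4, w5, w6⟩ := ih v' (by have := card_lt_card k1; omega) k2 k3 k4
      exact ⟨w, w1, w2, w3, w4, fun a h => w5 a (k5 a h), k6.trans w6⟩
    by_cases hb : ∃ b ∈ F, b ≠ a
    · obtain ⟨b, hbF, hba⟩ := hb
      have hb' : Int.fract (v b) ≠ 0 := (mem_filter.1 hbF).2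
      have hvb : v b ≠ 0 := by
        intro h
        rw [h] at hb'
        simp at hb'
      have hfl : (0 : ℝ) ≤ ⌊v b⌋ := by exact_mod_cast Int.floor_nonneg.2 (h0 b)
      obtain ⟨δ, hδ0, hδ1, hδ2, hδ3⟩ : ∃ δ : ℝ, 0 ≤ δ ∧ δ ≤ ⌈v a⌉ - v a ∧ δ ≤ v b - ⌊v b⌋ ∧
          (δ = ⌈v a⌉ - v a ∨ δ = v b - ⌊v b⌋) := by
        have e1 := Int.le_ceil (v a)
        have e2 := Int.floor_le (v b)
        rcases le_total (⌈v a⌉ - v a : ℝ) (v b - ⌊v b⌋) with h | h
        · exact ⟨_, by linarith, le_rfl, h, Or.inl rfl⟩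
        · exact ⟨_, by linarith, h, le_rfl, Or.inr rfl⟩
      let v' : α → ℝ := fun z => v z + (if z = a then δ else 0) - (if z = b then δ else 0)
      have va : v' a = v a + δ := by simp [v', hba.symm]
      have vb : v' b = v b - δ := by simp [v', hba]
      have vz : ∀ z, z ≠ a → z ≠ b → v' z = v z := by
        intro z h1 h2
        simp [v', h1, h2]
      refine finish v' ?_ ?_ ?_ ?_ ?_ ?_
      · refine (ssubset_iff_of_subset ?_).2 ?_
        · intro z hz
          by_cases h1 : z = a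
          · rw [h1]; exact haF
          by_cases h2 : z = b
          · rw [h2]; exact hbF
          rw [mem_filter, vz z h1 h2] at hz
          exact mem_filter.2 hz
        · rcases hδ3 with h | h
          · refine ⟨a, haF, fun hz => (mem_filter.1 hz).2 ?_⟩
            rw [va, h]
            simp
          · refine ⟨b, hbF, fun hz => (mem_filter.1 hz).2 ?_⟩
            rw [vb, h]
            simp
      · intro z
        by_cases h1 : z = a
        · rw [h1, va]; linarith [h0 a]
        by_cases h2 : z = b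
        · rw [h2, vb]; linarith
        rw [vz z h1 h2]; exact h0 z
      · intro z
        by_cases h3 : z = a
        · rw [h3, va]; linarith
        by_cases h2 : z = b
        · rw [h2, vb]; linarith [h1 b]
        rw [vz z h3 h2]; exact h1 z
      · simp only [v', sum_sub_distrib, sum_add_distrib, sum_ite_eq', mem_univ, if_true]
        linarith
      · intro z hz
        have h3 : z ≠ a := fun h => hva (h ▸ hz)
        have h4 : z ≠ b := fun h => hvb (h ▸ hz)
        rw [vz z h3 h4, hz]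
      · simp only [v', sub_mul, add_mul, ite_mul, zero_mul, sum_sub_distrib, sum_add_distrib,
          sum_ite_eq', mem_univ, if_true]
        have := mul_le_mul_of_nonneg_left (hmax b hbF) hδ0
        linarith
    · push Not at hb
      let δ : ℝ := ⌈v a⌉ - v a
      have hδ0 : 0 ≤ δ := by have := Int.le_ceil (v a); simp only [δ]; linarith
      let v' : α → ℝ := fun z => v z + (if z = a then δ else 0)
      have va : v' a = ⌈v a⌉ := by simp [v', δ]
      have vz : ∀ z, z ≠ a → v' z = v z := by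
        intro z h1
        simp [v', h1]
      have hint : ∀ z, Int.fract (v' z) = 0 := by
        intro z
        by_cases h3 : z = a
        · rw [h3, va]; simp
        · rw [vz z h3]
          by_contra h
          exact h3 (hb z (mem_filter.2 ⟨mem_univ _, h⟩))
      have hsum : ∑ z, v' z = ∑ z, v z + δ := by
        simp only [v', sum_add_distrib, sum_ite_eq', mem_univ, if_true]
      refine ⟨v', hint, ?_, ?_, ?_, ?_, ?_⟩
      · intro z
        by_cases h3 : z = a
        · rw [h3, va]; linarith [h0 a, Int.le_ceil (v a)]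
        · rw [vz z h3]; exact h0 z
      · intro z
        by_cases h3 : z = a
        · rw [h3, va]; exact hceil
        · rw [vz z h3]; exact h1 z
      · have e : ∑ z, v' z = ((∑ z, ⌊v' z⌋ : ℤ) : ℝ) := by
          push_cast
          refine sum_congr rfl (fun z _ => ?_)
          have := Int.floor_add_fract (v' z)
          rw [hint z] at this
          linarith
        have hlt : δ < 1 := by have := Int.ceil_lt_add_one (v a); simp only [δ]; linarith
        have : ((∑ z, ⌊v' z⌋ : ℤ) : ℝ) < ((s + 1 : ℤ) : ℝ) := by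
          rw [← e, hsum]; push_cast; linarith
        have : (∑ z, ⌊v' z⌋ : ℤ) ≤ (s : ℤ) := by
          have := Int.cast_lt.1 this
          omega
        rw [e]
        exact_mod_cast this
      · intro z hz
        have h3 : z ≠ a := fun h => hva (h ▸ hz)
        rw [vz z h3, hz]
      · simp only [v', add_mul, ite_mul, zero_mul, sum_add_distrib, sum_ite_eq', mem_univ, if_true]
        have := mul_nonneg hδ0 (hc a)
        linarith

theorem phi_update {α : Type} [Fintype α] [DecidableEq α] (u : α → α → ℝ) (x : α) (v : α → ℝ)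
    (hv : v x = 0) :
    ∑ y, ∑ z, Function.update u x v y z * Function.update u x v z y =
      ∑ y ∈ univ.erase x, ∑ z ∈ univ.erase x, u y z * u z y + 2 * ∑ z, v z * u z x := by
  have e0 : ∑ z, v z * u z x = ∑ z ∈ univ.erase x, v z * u z x := by
    rw [← add_sum_erase univ _ (mem_univ x), hv]
    simp
  rw [← add_sum_erase univ _ (mem_univ x), ← add_sum_erase univ _ (mem_univ x)]
  have e1 : ∑ z ∈ univ.erase x, Function.update u x v x z * Function.update u x v z x =
      ∑ z ∈ univ.erase x, v z * u z x := by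
    refine sum_congr rfl (fun z hz => ?_)
    rw [Function.update_self, Function.update_of_ne (ne_of_mem_erase hz)]
  have e2 : ∑ y ∈ univ.erase x, ∑ z, Function.update u x v y z * Function.update u x v z y =
      ∑ y ∈ univ.erase x, (v y * u y x + ∑ z ∈ univ.erase x, u y z * u z y) := by
    refine sum_congr rfl (fun y hy => ?_)
    rw [← add_sum_erase univ _ (mem_univ x), Function.update_self,
      Function.update_of_ne (ne_of_mem_erase hy), mul_comm]
    congr 1
    refine sum_congr rfl (fun z hz => ?_)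
    rw [Function.update_of_ne (ne_of_mem_erase hz)]
  rw [e1, e2, sum_add_distrib, e0, Function.update_self, hv]
  ring

theorem core {α : Type} [Fintype α] [DecidableEq α] (ρ : ℕ) (s : α → ℕ) (hs : Odd (∑ x, s x))
    (u : α → α → ℝ) (h0 : ∀ x y, 0 ≤ u x y) (h1 : ∀ x y, u x y ≤ ρ) (h2 : ∀ x, ∑ y, u x y ≤ s x)
    (h3 : ∀ x, u x x = 0) : ∑ x, ∑ y, u x y * u y x ≤ ρ * ((∑ x, s x : ℕ) - 1 : ℝ) := by
  have step : ∀ S : Finset α, ∃ w : α → α → ℝ, (∀ x ∈ S, ∀ y, Int.fract (w x y) = 0) ∧
      (∀ x y, 0 ≤ w x y) ∧ (∀ x y, w x y ≤ ρ) ∧ (∀ x, ∑ y, w x y ≤ s x) ∧ (∀ x, w x x = 0) ∧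
      ∑ x, ∑ y, u x y * u y x ≤ ∑ x, ∑ y, w x y * w y x := by
    intro S
    induction S using Finset.induction_on with
    | empty => exact ⟨u, by simp, h0, h1, h2, h3, le_rfl⟩
    | insert x S _ ih =>
      obtain ⟨w, w0, w1, w2, w3, w4, w5⟩ := ih
      obtain ⟨v, v0, v1, v2, v3, v4, v5⟩ := round_row ρ (s x) (fun z => w z x) (fun z => w1 z x)
        _ (w x) le_rfl (w1 x) (w2 x) (w3 x)
      have hc : ∀ (P : α → (α → ℝ) → Prop), P x v → ∀ y, (y ≠ x → P y (w y)) →
          P y (Function.update w x v y) := by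
        intro P hx y hy
        by_cases h : y = x
        · rw [h, Function.update_self]; exact hx
        · rw [Function.update_of_ne h]; exact hy h
      refine ⟨Function.update w x v, ?_, ?_, ?_, ?_, ?_, ?_⟩
      · intro y hy
        exact hc (fun _ f => ∀ z, Int.fract (f z) = 0) v0 y
          (fun h => w0 y ((mem_insert.1 hy).resolve_left h))
      · intro y
        exact hc (fun _ f => ∀ z, 0 ≤ f z) v1 y (fun _ => w1 y)
      · intro y
        exact hc (fun _ f => ∀ z, f z ≤ ρ) v2 y (fun _ => w2 y)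
      · intro y
        exact hc (fun y f => ∑ z, f z ≤ s y) v3 y (fun _ => w3 y)
      · intro y
        exact hc (fun y f => f y = 0) (v4 x (w4 x)) y (fun _ => w4 y)
      · refine w5.trans ?_
        have e := phi_update w x (w x) (w4 x)
        rw [Function.update_eq_self] at e
        rw [e, phi_update w x v (v4 x (w4 x))]
        linarith
  obtain ⟨w, w0, w1, w2, w3, w4, w5⟩ := step univ
  have hn : ∀ x y, ∃ m : ℕ, w x y = m := by
    intro x y
    have e := Int.floor_add_fract (w x y)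
    rw [w0 x (mem_univ _) y, add_zero] at e
    obtain ⟨m, hm⟩ := Int.eq_ofNat_of_zero_le (Int.floor_nonneg.2 (w1 x y))
    exact ⟨m, by rw [← e, hm]; simp⟩
  choose N hN using hn
  have n2 : ∀ x y, N x y ≤ ρ := fun x y => by
    have := w2 x y
    rw [hN] at this
    exact_mod_cast this
  have n3 : ∀ x, ∑ y, N x y ≤ s x := fun x => by
    have := w3 x
    simp only [hN] at this
    exact_mod_cast this
  have n4 : ∀ x, N x x = 0 := fun x => by
    have := w4 x
    rw [hN] at this
    exact_mod_cast this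
  have ev : Even (∑ x, ∑ y, min (N x y) (N y x)) := by
    rw [← ZMod.natCast_eq_zero_iff_even, ← sum_product']
    push_cast
    refine sum_involution (fun q _ => q.swap) ?_ ?_ ?_ ?_
    · intro q _
      simp only [Prod.fst_swap, Prod.snd_swap]
      rw [min_comm (N q.2 q.1)]
      exact CharTwo.add_self_eq_zero _
    · intro q _ hq h
      apply hq
      have : q.2 = q.1 := congrArg Prod.fst h
      rw [this, n4]
      simp
    · intro q _
      simp
    · intro q _
      simp
  have le1 : ∑ x, ∑ y, min (N x y) (N y x) ≤ ∑ x, s x :=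
    sum_le_sum (fun x _ => (sum_le_sum (fun y _ => min_le_left _ _)).trans (n3 x))
  have le2 : ∑ x, ∑ y, min (N x y) (N y x) + 1 ≤ ∑ x, s x := by
    obtain ⟨a, ha⟩ := ev
    obtain ⟨b, hb⟩ := hs
    omega
  have le3 : ∑ x, ∑ y, N x y * N y x ≤ ρ * ∑ x, ∑ y, min (N x y) (N y x) := by
    rw [mul_sum]
    refine sum_le_sum (fun x _ => ?_)
    rw [mul_sum]
    refine sum_le_sum (fun y _ => ?_)
    rcases le_total (N x y) (N y x) with h | h
    · rw [min_eq_left h, mul_comm]
      exact Nat.mul_le_mul_right _ (n2 y x)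
    · rw [min_eq_right h]
      exact Nat.mul_le_mul_right _ (n2 x y)
  refine w5.trans ?_
  simp only [hN]
  have a1 : ((∑ x, ∑ y, N x y * N y x : ℕ) : ℝ) ≤ ((ρ * ∑ x, ∑ y, min (N x y) (N y x) : ℕ) : ℝ) := by
    exact_mod_cast le3
  have a2 : ((∑ x, ∑ y, min (N x y) (N y x) + 1 : ℕ) : ℝ) ≤ ((∑ x, s x : ℕ) : ℝ) := by
    exact_mod_cast le2
  rw [Nat.cast_mul] at a1
  rw [Nat.cast_add, Nat.cast_one] at a2
  have a3 : (∑ x, ∑ y, (N x y : ℝ) * (N y x : ℝ)) = ((∑ x, ∑ y, N x y * N y x : ℕ) : ℝ) := by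
    push_cast
    rfl
  rw [a3]
  refine a1.trans (mul_le_mul_of_nonneg_left (by linarith) (Nat.cast_nonneg _))

theorem main {α β : Type} [Fintype α] [Fintype β] [DecidableEq α] [DecidableEq β] (t ρ : ℕ)
    (M : α → β → ℝ) (hM : ∀ x y, 0 ≤ M x y) (ht : Odd t) (px : Fin t → α) (py : Fin t → β)
    (hp : ∀ i j, px i = px j → py i = py j → i = j) (h0 : ∀ i, M (px i) (py i) = 0) (C : ℝ)
    (hR : ∀ x, ∑ y, M x y ≤ ρ * C) (hC : ∀ y, ∑ x, M x y ≤ C) :
    ∑ i, ∑ j, M (px i) (py j) * M (px j) (py i) ≤ ((t : ℝ) - 1) * (ρ * C) * C := by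
  have ht0 : 0 < t := ht.pos
  have hC0 : 0 ≤ C := (sum_nonneg (fun x _ => hM x _)).trans (hC (py ⟨0, ht0⟩))
  rcases hC0.eq_or_lt with h | hCpos
  · have hz : ∀ x y, M x y = 0 := fun x y =>
      le_antisymm ((single_le_sum (f := fun x => M x y) (fun x _ => hM x y) (mem_univ x)).trans
        ((hC y).trans h.ge)) (hM x y)
    simp [hz, ← h]
  let I : α → Finset (Fin t) := fun x => univ.filter (fun i => px i = x)
  let U : α → α → ℝ := fun x z => ∑ i ∈ I x, M z (py i)
  have hsum : ∑ x, (I x).card = t := by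
    have := card_eq_sum_card_fiberwise (s := (univ : Finset (Fin t))) (t := (univ : Finset α))
      (f := px) (fun _ _ => mem_coe.2 (mem_univ _))
    rw [card_univ, Fintype.card_fin] at this
    exact this.symm
  have key := core ρ (fun x => (I x).card) (by rw [hsum]; exact ht) (fun x z => U x z / C)
    (fun x z => div_nonneg (sum_nonneg (fun i _ => hM _ _)) hC0)
    (fun x z => by
      rw [div_le_iff₀ hCpos]
      refine le_trans ?_ (hR z)
      have e : U x z = ∑ y ∈ (I x).image py, M z y := by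
        rw [sum_image]
        intro i hi j hj hij
        exact hp i j ((mem_filter.1 hi).2.trans (mem_filter.1 hj).2.symm) hij
      rw [e]
      exact sum_le_sum_of_subset_of_nonneg (subset_univ _) (fun y _ _ => hM z y))
    (fun x => by
      rw [← sum_div, div_le_iff₀ hCpos]
      simp only [U]
      rw [sum_comm]
      refine (sum_le_sum (fun i _ => hC (py i))).trans ?_
      rw [sum_const, nsmul_eq_mul])
    (fun x => by
      have : U x x = 0 := sum_eq_zero (fun i hi => by
        rw [← (mem_filter.1 hi).2]; exact h0 i)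
      simp [this])
  rw [hsum] at key
  have e : ∑ i, ∑ j, M (px i) (py j) * M (px j) (py i) = ∑ x, ∑ z, U x z * U z x := by
    rw [← sum_fiberwise univ px]
    refine sum_congr rfl (fun x _ => ?_)
    simp only [U, sum_mul_sum]
    rw [sum_comm]
    symm
    rw [sum_comm]
    symm
    rw [sum_comm]
    refine sum_congr rfl (fun i hi => ?_)
    rw [← sum_fiberwise univ px]
    refine sum_congr rfl (fun z _ => sum_congr rfl (fun j hj => ?_))
    rw [(mem_filter.1 hi).2, (mem_filter.1 hj).2, mul_comm]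
  have e2 : ∑ x, ∑ z, U x z * U z x = (∑ x, ∑ z, U x z / C * (U z x / C)) * (C * C) := by
    rw [sum_mul]
    refine sum_congr rfl (fun x _ => ?_)
    rw [sum_mul]
    refine sum_congr rfl (fun z _ => ?_)
    field_simp
  rw [e, e2]
  refine (mul_le_mul_of_nonneg_right key (by positivity)).trans (le_of_eq ?_)
  ring

theorem result (n k t : ℕ) (M : Matrix (Fin n) (Fin k) ℝ) (hM : ∀ x y, 0 ≤ M x y) (ht : Odd t)
    (p : Fin t → Fin n × Fin k) (hp : Function.Injective p) (h0 : ∀ i, M (p i).1 (p i).2 = 0)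
    (R C : ℝ) (hR : ∀ x, ∑ y, M x y ≤ R) (hC : ∀ y, ∑ x, M x y ≤ C)
    (hρ : ∃ ρ : ℕ, R = ρ * C ∨ C = ρ * R) :
    ∑ i, ∑ j, M (p i).1 (p j).2 * M (p j).1 (p i).2 ≤ ((t : ℝ) - 1) * R * C := by
  obtain ⟨ρ, h | h⟩ := hρ
  · subst h
    exact main t ρ M hM ht (fun i => (p i).1) (fun i => (p i).2)
      (fun i j a b => hp (Prod.ext a b)) h0 C hR hC
  · subst h
    have := main t ρ (fun y x => M x y) (fun y x => hM x y) ht (fun i => (p i).2)
      (fun i => (p i).1) (fun i j a b => hp (Prod.ext b a)) h0 R hC hR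
    refine le_trans (le_of_eq ?_) (this.trans (le_of_eq (by ring)))
    exact sum_congr rfl (fun i _ => sum_congr rfl (fun j _ => mul_comm _ _))

end Pool.Agent.Results.MP_ee21b2_co.IntRatio
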